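import Pool.Agent.L5helper46.CD.Bound

/-!
# The density of connected sets and the vertices of degree two

For every connected graph with at least two vertices the defect `1 - D(G)` of the density of connected sets is at
least a sixth of the proportion of the vertices whose degree is not two. So the density is at most `5/6` for all
connected graphs without vertices of degree two, and `5/6` is the supremum for minimum degree at least three.
-/

set_option autoImplicit false

namespace Pool.Agent.Results.MP_345bc6_co.DegreeTwoVertices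

open Finset Pool.Agent

noncomputable section

open scoped Classical

/-- The connected sets of `G`: the vertex sets which induce a connected (so nonempty) subgraph. -/
def connectedSets {n : ℕ} (G : SimpleGraph (Fin n)) : Finset (Finset (Fin n)) :=
  univ.filter (fun S => (G.induce (S : Set (Fin n))).Connected)

/-- `A(G)`: the average number of vertices of a connected set. -/
def averageSize {n : ℕ} (G : SimpleGraph (Fin n)) : ℝ :=
  (∑ S ∈ connectedSets G, (S.card : ℝ)) / (connectedSets G).card

/-- `D(G)`: the density of the connected sets. -/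
def density {n : ℕ} (G : SimpleGraph (Fin n)) : ℝ := averageSize G / n

/-- The number of the vertices of degree two. -/
def numDegreeTwo {n : ℕ} (G : SimpleGraph (Fin n)) : ℕ := (univ.filter fun v => (G.neighborSet v).ncard = 2).card

theorem connectedSets_eq {n : ℕ} (G : SimpleGraph (Fin n)) :
    connectedSets G = T2H84.conns G := by
  unfold connectedSets T2H84.conns
  ext C
  simp only [mem_filter, mem_univ, true_and]
  exact (T2H84.conn_iff G C).symm

theorem induce_univ_connected {n : ℕ} (G : SimpleGraph (Fin n)) :
    (G.induce ((univ : Finset (Fin n)) : Set (Fin n))).Connected ↔ G.Connected := by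
  rw [show ((univ : Finset (Fin n)) : Set (Fin n)) = Set.univ from coe_univ]
  exact (SimpleGraph.induceUnivIso G).connected_iff

theorem ncard_neighbor {n : ℕ} (G : SimpleGraph (Fin n)) (v : Fin n) :
    (G.neighborSet v).ncard = (univ.filter (G.Adj v)).card := by
  rw [← Set.ncard_coe_finset]
  congr 1
  ext x
  simp

theorem numDegreeTwo_eq {n : ℕ} (G : SimpleGraph (Fin n)) :
    numDegreeTwo G = (L5helper46.CD.deg2 G).card := by
  unfold numDegreeTwo L5helper46.CD.deg2
  congr 1
  ext v
  simp only [mem_filter, mem_univ, true_and, ncard_neighbor]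

theorem card_pos_of_connected {n : ℕ} {G : SimpleGraph (Fin n)} (h : G.Connected) :
    0 < (connectedSets G).card := by
  rw [card_pos]
  refine ⟨univ, ?_⟩
  unfold connectedSets
  simp only [mem_filter, mem_univ, true_and]
  exact (induce_univ_connected G).2 h

theorem defect {n : ℕ} (G : SimpleGraph (Fin n)) (hn : 2 ≤ n) (h : G.Connected) :
    ((n : ℝ) - numDegreeTwo G) / (6 * n) ≤ 1 - density G := by
  have h0 : ∀ v, 1 ≤ (univ.filter (G.Adj v)).card := by
    intro v
    have : Nontrivial (Fin n) := Fin.nontrivial_iff_two_le.2 hn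
    obtain ⟨w, hw⟩ := h.preconnected.exists_adj_of_nontrivial v
    exact card_pos.2 ⟨w, mem_filter.2 ⟨mem_univ _, hw⟩⟩
  have hb := L5helper46.CD.upper_bound2 (G := G) h0
  rw [Fintype.card_fin, ← numDegreeTwo_eq, ← connectedSets_eq] at hb
  have hb' : (6 : ℝ) * ∑ C ∈ connectedSets G, (C.card : ℝ) ≤
      (5 * n + numDegreeTwo G) * (connectedSets G).card := by
    exact_mod_cast hb
  have hpos' : (0 : ℝ) < (connectedSets G).card := by exact_mod_cast card_pos_of_connected h
  have hn' : (0 : ℝ) < n := by exact_mod_cast (by omega : 0 < n)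
  have h1 : density G ≤ (5 * n + numDegreeTwo G) / (6 * n) := by
    unfold density averageSize
    rw [div_div, div_le_div_iff₀ (by positivity) (by positivity)]
    nlinarith
  have h2 : ((n : ℝ) - numDegreeTwo G) / (6 * n) = 1 - (5 * n + numDegreeTwo G) / (6 * n) := by
    field_simp
    ring
  rw [h2]
  linarith

theorem exists_dense (m : ℕ) : ∃ G : SimpleGraph (Fin (8 * m + 10)), G.Connected ∧
    (∀ v, (G.neighborSet v).ncard = 3) ∧ (20 * m - 40 : ℝ) / (3 * (8 * m + 10)) ≤ density G := by
  obtain ⟨K, h1, h2, h3⟩ := T2H84.exists_cubic m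
  have hc : K.Connected := (induce_univ_connected K).1 ((T2H84.conn_iff K univ).1 h1)
  refine ⟨K, hc, fun v => ?_, ?_⟩
  · rw [ncard_neighbor]; exact h2 v
  · have h3' : (20 : ℝ) * m * (T2H84.conns K).card ≤
        3 * ∑ C ∈ T2H84.conns K, (C.card : ℝ) + 40 * (T2H84.conns K).card := by
      exact_mod_cast h3
    have hpos' : (0 : ℝ) < (T2H84.conns K).card := by
      rw [← connectedSets_eq]
      exact_mod_cast card_pos_of_connected hc
    unfold density averageSize
    rw [connectedSets_eq, div_div]
    have hm : (0 : ℝ) ≤ m := Nat.cast_nonneg m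
    push_cast
    rw [div_le_div_iff₀ (by positivity) (by positivity)]
    have hmm : (0 : ℝ) < 8 * m + 10 := by positivity
    nlinarith [mul_le_mul_of_nonneg_right h3' hmm.le]

theorem no_two {n : ℕ} (G : SimpleGraph (Fin n)) (hn : 2 ≤ n) (h : G.Connected)
    (h2 : ∀ v, (G.neighborSet v).ncard ≠ 2) : density G ≤ 5 / 6 := by
  have h1 := defect G hn h
  have h3 : numDegreeTwo G = 0 := by
    unfold numDegreeTwo
    rw [card_eq_zero, filter_eq_empty_iff]
    exact fun v _ => h2 v
  have hn' : (n : ℝ) ≠ 0 := by exact_mod_cast (by omega : n ≠ 0)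
  rw [h3, Nat.cast_zero, sub_zero, show (n : ℝ) / (6 * n) = 1 / 6 by field_simp] at h1
  linarith

theorem two_le {n : ℕ} {G : SimpleGraph (Fin n)} (h : G.Connected) (h3 : ∀ v, 3 ≤ (G.neighborSet v).ncard) :
    2 ≤ n := by
  obtain ⟨v⟩ := h.nonempty
  have h1 := h3 v
  rw [ncard_neighbor] at h1
  have h2 := card_le_univ (univ.filter (G.Adj v))
  rw [Fintype.card_fin] at h2
  omega

/-- Connected graphs have density of connected sets at most `1 - (n - n₂)/(6n)`, where `n₂` is the number of the
vertices of degree two; the supremum for minimum degree at least three is `5/6`. -/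
theorem result :
    (∀ (n : ℕ) (G : SimpleGraph (Fin n)), 2 ≤ n → G.Connected →
      ((n : ℝ) - numDegreeTwo G) / (6 * n) ≤ 1 - density G) ∧
    (∀ (n : ℕ) (G : SimpleGraph (Fin n)), 2 ≤ n → G.Connected → (∀ v, (G.neighborSet v).ncard ≠ 2) →
      density G ≤ 5 / 6) ∧
    IsLUB {d : ℝ | ∃ (n : ℕ) (G : SimpleGraph (Fin n)), G.Connected ∧ (∀ v, 3 ≤ (G.neighborSet v).ncard) ∧
      density G = d} (5 / 6) := by
  refine ⟨fun n G hn h => defect G hn h, fun n G hn h h2 => no_two G hn h h2, ?_, ?_⟩
  · rintro d ⟨n, G, h, h3, rfl⟩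
    exact no_two G (two_le h h3) h fun v hv => by
      have := h3 v
      omega
  · intro b hb
    by_contra hcon
    have hc : 0 < 5 / 6 - b := by linarith [not_le.1 hcon]
    obtain ⟨m, hm⟩ := exists_nat_gt (65 / (18 * (5 / 6 - b)))
    obtain ⟨G, h1, h2, h3⟩ := exists_dense m
    have h4 : density G ≤ b := hb ⟨_, G, h1, fun v => by rw [h2 v], rfl⟩
    have h5 := h3.trans h4
    have hm0 : (0 : ℝ) ≤ m := Nat.cast_nonneg m
    rw [div_le_iff₀ (by positivity)] at h5
    rw [div_lt_iff₀ (by positivity)] at hm
    nlinarith

end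

end Pool.Agent.Results.MP_345bc6_co.DegreeTwoVertices
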